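import Pool.Agent.Helper64.FP.Fl
import Pool.Agent.Helper64.FP.Stg
import Pool.Agent.Helper64.FP.Pr
import Pool.Agent.Helper64.FP.Ind
import Pool.Agent.Helper64.FP.Res

/-!
# Primes `m + [n^c₁], …, m + [n^c_ℓ]` with real exponents and a fixed `m`

Question 2 for every `ℓ` and all real exponents `1 ≥ c₁ > c₂ > ⋯ > c_ℓ > 0` with `c_(i+1) < 2 c_i / 3`, and this for every prime `m`
given in advance. The exponents may be irrational.

Proof. Induction, from the smallest exponent to the largest one. If `[n^c'] = g` then the possible values of `[n^c]`, for the
next exponent `c > 3 c' / 2`, are all the integers of an interval of length about `X^(1 - c'/c)`, `g^(c/c') ≈ X`, which is longer than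
`X^(1/3 + ε)`. These intervals are disjoint for different `g`. The primes are regularly distributed in almost all intervals of this
length between `1` and `2 X`, with at most `X / (log X)^A` exceptions (library, helper24's project UT), and the numbers `g` which are
obtained for the smaller exponents are at least `X^(c'/c) / (log X)^B` in number, so that most of their intervals, shifted by
`m`, contain the expected number of primes (up to a constant).
-/

set_option autoImplicit false

namespace Pool.Agent.Results.MP_cb2931_nt.WellSpacedExponents

/-- **Well spaced exponents.** Let `c 0, …, c (l - 1)` be positive real numbers with `c 0 ≤ 1` and `c (i + 1) < 2 / 3 * c i`, and let `m` be any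
natural number. For every `N` there is `n ≥ N` such that `m + [n^(c i)]` is a prime for all `i < l`. In particular (`m` a prime) the answer to
Question 2 is positive for these exponents. -/
theorem result (c : ℕ → ℝ) (l m : ℕ) (hc : ∀ i < l, 0 < c i) (h0 : c 0 ≤ 1)
    (h : ∀ i, i + 1 < l → c (i + 1) < 2 / 3 * c i) (N : ℕ) :
    ∃ n : ℕ, N ≤ n ∧ ∀ i < l, (m + ⌊(n : ℝ) ^ c i⌋₊).Prime :=
  Pool.Agent.Helper64.FP.Res.main
    (Pool.Agent.Helper64.FP.Ind.main Pool.Agent.Helper64.FP.Pr.main
      (Pool.Agent.Helper64.FP.Stg.main Pool.Agent.Helper64.FP.Len.main))
    Pool.Agent.Helper64.FP.Fl.main c l m hc h0 h N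

end Pool.Agent.Results.MP_cb2931_nt.WellSpacedExponents
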